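import Pool.Agent.H63.RGG.Law

/-!
# The correlation of a Gaussian vector with a fixed direction
-/

open MeasureTheory ProbabilityTheory Set Filter Topology

namespace Pool.Agent.H63.RGG

variable {ι : Type*} [Fintype ι]

lemma tail_abs {w : ι → ℝ} (hw : ∑ k, w k ^ 2 = 1) {a : ℝ} (ha : 0 ≤ a) :
    (GG ι).real {z | a ≤ |∑ k, w k * z k|} ≤ 2 * Real.exp (-a ^ 2 / 2) := by
  have h1 := tail_one hw a
  have hw' : ∑ k, (-w k) ^ 2 = 1 := by simpa using hw
  have h2 := tail_one hw' a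
  have hsub : {z : ι → ℝ | a ≤ |∑ k, w k * z k|} ⊆
      {z | a ≤ ∑ k, w k * z k} ∪ {z | a ≤ ∑ k, (-w k) * z k} := by
    intro z hz
    simp only [mem_ofPred_eq, mem_union] at hz ⊢
    rcases le_abs.1 hz with h | h
    · exact Or.inl h
    · right
      simpa [neg_mul, Finset.sum_neg_distrib] using h
  have h3 := measureReal_mono (μ := GG ι) hsub
  have h4 := measureReal_union_le (μ := GG ι) {z : ι → ℝ | a ≤ ∑ k, w k * z k}
    {z | a ≤ ∑ k, (-w k) * z k}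
  have h5 := QQ_le ha
  linarith

/-- the correlation with a unit vector is small -/
lemma corr_tail {w : ι → ℝ} (hw : ∑ k, w k ^ 2 = 1) {u : ℝ} (h0 : 0 ≤ u) (h1 : u ≤ 1) :
    (GG ι).real {y | u * Real.sqrt (∑ k, y k ^ 2) ≤ |∑ k, w k * y k|} ≤
      3 * Real.exp (-(Fintype.card ι * u ^ 2 / 16)) := by
  set D : ℝ := (Fintype.card ι : ℝ) with hD
  have hD0 : 0 ≤ D := Nat.cast_nonneg _
  set a : ℝ := u * Real.sqrt (D / 2) with ha
  have ha0 : 0 ≤ a := by positivity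
  have hsub : {y : ι → ℝ | u * Real.sqrt (∑ k, y k ^ 2) ≤ |∑ k, w k * y k|} ⊆
      {y | ∑ k, y k ^ 2 ≤ (1 - 1 / 2) * D} ∪ {y | a ≤ |∑ k, w k * y k|} := by
    intro y hy
    simp only [mem_ofPred_eq, mem_union] at hy ⊢
    by_cases h : ∑ k, y k ^ 2 ≤ (1 - 1 / 2) * D
    · exact Or.inl h
    · right
      refine le_trans ?_ hy
      rw [ha]
      apply mul_le_mul_of_nonneg_left _ h0
      apply Real.sqrt_le_sqrt
      linarith
  have h3 := measureReal_mono (μ := GG ι) hsub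
  have h4 := measureReal_union_le (μ := GG ι) {y : ι → ℝ | ∑ k, y k ^ 2 ≤ (1 - 1 / 2) * D}
    {y | a ≤ |∑ k, w k * y k|}
  have h5 := norm_lower (ι := ι) (η := 1 / 2) (by norm_num)
  have h6 := tail_abs hw ha0
  have h7 : a ^ 2 = u ^ 2 * (D / 2) := by
    rw [ha, mul_pow, Real.sq_sqrt (by positivity)]
  rw [h7] at h6
  have h8 : Real.exp (-(u ^ 2 * (D / 2)) / 2) ≤ Real.exp (-(D * u ^ 2 / 16)) := by
    apply Real.exp_le_exp.2
    nlinarith [mul_nonneg hD0 (sq_nonneg u)]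
  have h9 : Real.exp (-(D * (1 / 2) ^ 2 / 4)) ≤ Real.exp (-(D * u ^ 2 / 16)) := by
    apply Real.exp_le_exp.2
    have : u ^ 2 ≤ 1 := by nlinarith
    nlinarith
  linarith

/-- the correlation with an arbitrary nonzero vector is small -/
lemma corr_tail' {x : ι → ℝ} (hx : 0 < ∑ k, x k ^ 2) {u : ℝ} (h0 : 0 ≤ u) (h1 : u ≤ 1) :
    (GG ι).real {y | u * (Real.sqrt (∑ k, x k ^ 2) * Real.sqrt (∑ k, y k ^ 2)) ≤
      |∑ k, x k * y k|} ≤ 3 * Real.exp (-(Fintype.card ι * u ^ 2 / 16)) := by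
  set N : ℝ := Real.sqrt (∑ k, x k ^ 2) with hN
  have hN0 : 0 < N := Real.sqrt_pos.2 hx
  have hw : ∑ k, (x k / N) ^ 2 = 1 := by
    simp_rw [div_pow]
    rw [← Finset.sum_div, hN, Real.sq_sqrt hx.le]
    exact div_self hx.ne'
  refine le_trans (le_of_eq ?_) (corr_tail hw h0 h1)
  congr 1
  ext y
  simp only [mem_ofPred_eq]
  have e : ∑ k, x k / N * y k = (∑ k, x k * y k) / N := by
    rw [Finset.sum_div]
    apply Finset.sum_congr rfl
    intro k _
    ring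
  rw [e, abs_div, abs_of_pos hN0, le_div_iff₀ hN0]
  constructor
  · intro h; linarith
  · intro h; linarith

/-- the law of the cap indicator does not depend on the (nonzero) direction -/
lemma cap_prob {x : ι → ℝ} (hx : 0 < ∑ k, x k ^ 2) (t : ℝ) :
    ∃ w : ι → ℝ, ∑ k, w k ^ 2 = 1 ∧ (∀ k, w k = x k / Real.sqrt (∑ k, x k ^ 2)) ∧
    {z : ι → ℝ | t * Real.sqrt (∑ k, x k ^ 2) * Real.sqrt (∑ k, z k ^ 2) ≤ ∑ k, x k * z k} =
      {z | t * Real.sqrt (∑ k, z k ^ 2) ≤ ∑ k, w k * z k} := by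
  set N : ℝ := Real.sqrt (∑ k, x k ^ 2) with hN
  have hN0 : 0 < N := Real.sqrt_pos.2 hx
  refine ⟨fun k => x k / N, ?_, fun k => rfl, ?_⟩
  · simp_rw [div_pow]
    rw [← Finset.sum_div, hN, Real.sq_sqrt hx.le]
    exact div_self hx.ne'
  · ext z
    simp only [mem_ofPred_eq]
    have e : ∑ k, x k / N * z k = (∑ k, x k * z k) / N := by
      rw [Finset.sum_div]
      apply Finset.sum_congr rfl
      intro k _
      ring
    rw [e, le_div_iff₀ hN0]
    constructor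
    · intro h; linarith
    · intro h; linarith

/-- the cap probability is nearly a Gaussian tail: upper bound -/
lemma cap_upper {w : ι → ℝ} (hw : ∑ k, w k ^ 2 = 1) {t η : ℝ} (ht : 0 ≤ t) (h0 : 0 ≤ η) (h1 : η ≤ 1) :
    (GG ι).real {z | t * Real.sqrt (∑ k, z k ^ 2) ≤ ∑ k, w k * z k} ≤
      QQ (t * Real.sqrt ((1 - η) * Fintype.card ι)) + Real.exp (-(Fintype.card ι * η ^ 2 / 4)) := by
  set D : ℝ := (Fintype.card ι : ℝ) with hD
  have hsub : {z : ι → ℝ | t * Real.sqrt (∑ k, z k ^ 2) ≤ ∑ k, w k * z k} ⊆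
      {z | t * Real.sqrt ((1 - η) * D) ≤ ∑ k, w k * z k} ∪ {z | ∑ k, z k ^ 2 ≤ (1 - η) * D} := by
    intro z hz
    simp only [mem_ofPred_eq, mem_union] at hz ⊢
    by_cases h : ∑ k, z k ^ 2 ≤ (1 - η) * D
    · exact Or.inr h
    · left
      refine le_trans (mul_le_mul_of_nonneg_left (Real.sqrt_le_sqrt (not_le.1 h).le) ht) hz
  have h3 := measureReal_mono (μ := GG ι) hsub
  have h4 := measureReal_union_le (μ := GG ι) {z : ι → ℝ | t * Real.sqrt ((1 - η) * D) ≤ ∑ k, w k * z k}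
    {z | ∑ k, z k ^ 2 ≤ (1 - η) * D}
  have h5 := norm_lower (ι := ι) h0
  rw [tail_one hw] at h4
  linarith

/-- the cap probability is nearly a Gaussian tail: lower bound -/
lemma cap_lower {w : ι → ℝ} (hw : ∑ k, w k ^ 2 = 1) {t η : ℝ} (ht : 0 ≤ t) (h0 : 0 ≤ η) (h1 : η ≤ 1) :
    QQ (t * Real.sqrt ((1 + η) * Fintype.card ι)) - Real.exp (-(Fintype.card ι * η ^ 2 / 8)) ≤
      (GG ι).real {z | t * Real.sqrt (∑ k, z k ^ 2) ≤ ∑ k, w k * z k} := by
  set D : ℝ := (Fintype.card ι : ℝ) with hD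
  have hsub : {z : ι → ℝ | t * Real.sqrt ((1 + η) * D) ≤ ∑ k, w k * z k} ⊆
      {z | t * Real.sqrt (∑ k, z k ^ 2) ≤ ∑ k, w k * z k} ∪ {z | (1 + η) * D ≤ ∑ k, z k ^ 2} := by
    intro z hz
    simp only [mem_ofPred_eq, mem_union] at hz ⊢
    by_cases h : (1 + η) * D ≤ ∑ k, z k ^ 2
    · exact Or.inr h
    · left
      refine le_trans (mul_le_mul_of_nonneg_left (Real.sqrt_le_sqrt (not_le.1 h).le) ht) hz
  have h3 := measureReal_mono (μ := GG ι) hsub
  have h4 := measureReal_union_le (μ := GG ι) {z : ι → ℝ | t * Real.sqrt (∑ k, z k ^ 2) ≤ ∑ k, w k * z k}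
    {z | (1 + η) * D ≤ ∑ k, z k ^ 2}
  have h5 := norm_upper (ι := ι) h0 h1
  rw [tail_one hw] at h3
  linarith

end Pool.Agent.H63.RGG
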