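import Pool.Agent.H63.RGG.Tail

/-!
# Concentration of the norm of a standard Gaussian vector (Chernoff), and of a coordinate relative
to the norm
-/

open MeasureTheory ProbabilityTheory Set Filter Topology

namespace Pool.Agent.H63.RGG

lemma sq_exp_integrable {l : ℝ} (hl : l < 1 / 2) :
    Integrable (fun x : ℝ => Real.exp (l * x ^ 2)) (gaussianReal 0 1) := by
  rw [gaussianReal_of_var_ne_zero 0 one_ne_zero,
    integrable_withDensity_iff_integrable_smul' (measurable_gaussianPDF 0 1)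
      (ae_of_all _ fun _ => gaussianPDF_lt_top)]
  have h := (integrable_exp_neg_mul_sq (b := 1 / 2 - l) (by linarith)).const_mul
    ((Real.sqrt (2 * Real.pi))⁻¹)
  refine h.congr (ae_of_all _ fun x => ?_)
  simp only [toReal_gaussianPDF, ph_eq, ph, smul_eq_mul]
  rw [mul_assoc, ← Real.exp_add]
  congr 2
  ring

lemma sq_exp_integral {l : ℝ} (hl : l < 1 / 2) :
    ∫ x, Real.exp (l * x ^ 2) ∂(gaussianReal 0 1) = (Real.sqrt (1 - 2 * l))⁻¹ := by
  rw [integral_gaussianReal_eq_integral_smul one_ne_zero]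
  have e : ∀ x : ℝ, gaussianPDFReal 0 1 x • Real.exp (l * x ^ 2) =
      (Real.sqrt (2 * Real.pi))⁻¹ * Real.exp (-(1 / 2 - l) * x ^ 2) := by
    intro x
    rw [ph_eq, ph, smul_eq_mul, mul_assoc, ← Real.exp_add]
    congr 2
    ring
  simp_rw [e]
  rw [integral_const_mul, integral_gaussian]
  have h1 : Real.pi / (1 / 2 - l) = (2 * Real.pi) / (1 - 2 * l) := by
    have : (1 / 2 - l) ≠ 0 := by linarith
    have : (1 - 2 * l) ≠ 0 := by linarith
    field_simp
  rw [h1, Real.sqrt_div (by positivity)]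
  have h2 : Real.sqrt (2 * Real.pi) ≠ 0 := (Real.sqrt_pos.2 (by positivity)).ne'
  field_simp

variable {ι : Type*} [Fintype ι]

/-- product of standard Gaussians -/
noncomputable abbrev GG (ι : Type*) [Fintype ι] : Measure (ι → ℝ) :=
  Measure.pi (fun _ : ι => gaussianReal 0 1)

lemma mgf_sq {l : ℝ} (hl : l < 1 / 2) :
    Integrable (fun x : ι → ℝ => Real.exp (l * ∑ k, x k ^ 2)) (GG ι) ∧
    mgf (fun x : ι → ℝ => ∑ k, x k ^ 2) (GG ι) l =
      (Real.sqrt (1 - 2 * l))⁻¹ ^ Fintype.card ι := by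
  have e : ∀ x : ι → ℝ, Real.exp (l * ∑ k, x k ^ 2) = ∏ k, Real.exp (l * x k ^ 2) := by
    intro x
    rw [Finset.mul_sum, Real.exp_sum]
  refine ⟨?_, ?_⟩
  · simp_rw [e]
    exact Integrable.fintype_prod (f := fun _ : ι => fun x : ℝ => Real.exp (l * x ^ 2))
      (fun _ => sq_exp_integrable hl)
  · unfold mgf
    simp_rw [e]
    rw [integral_fintype_prod_eq_pow (fun x : ℝ => Real.exp (l * x ^ 2)), sq_exp_integral hl]

lemma log_upper {η : ℝ} (h0 : 0 ≤ η) (h1 : η ≤ 1) : Real.log (1 + η) ≤ η - η ^ 2 / 4 := by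
  rw [Real.log_le_iff_le_exp (by linarith)]
  have hy : 0 ≤ η - η ^ 2 / 4 := by nlinarith
  refine le_trans ?_ (Real.quadratic_le_exp_of_nonneg hy)
  have h2 : 1 / 2 ≤ (1 - η / 4) ^ 2 := by nlinarith
  have h3 : η ^ 2 / 4 ≤ (η - η ^ 2 / 4) ^ 2 / 2 := by
    have : (η - η ^ 2 / 4) ^ 2 / 2 = η ^ 2 * (1 - η / 4) ^ 2 / 2 := by ring
    rw [this]
    nlinarith [sq_nonneg η]
  linarith

lemma log_lower {η : ℝ} (h0 : 0 ≤ η) : η - η ^ 2 / 2 ≤ Real.log (1 + η) := by
  refine le_trans ?_ (Real.le_log_one_add_of_nonneg h0)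
  rw [le_div_iff₀ (by linarith)]
  nlinarith [pow_nonneg h0 3]

/-- upper deviation of the squared norm -/
lemma norm_upper {η : ℝ} (h0 : 0 ≤ η) (h1 : η ≤ 1) :
    (GG ι).real {x | (1 + η) * Fintype.card ι ≤ ∑ k, x k ^ 2} ≤
      Real.exp (-(Fintype.card ι * η ^ 2 / 8)) := by
  set D : ℝ := (Fintype.card ι : ℝ) with hD
  set l : ℝ := η / (2 * (1 + η)) with hl
  have hl0 : 0 ≤ l := by positivity
  have hl1 : 1 - 2 * l = (1 + η)⁻¹ := by
    rw [hl]
    field_simp
    ring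
  have hl2 : l < 1 / 2 := by
    have : 0 < 1 - 2 * l := by rw [hl1]; positivity
    linarith
  obtain ⟨hi, hm⟩ := mgf_sq (ι := ι) hl2
  have h := measure_ge_le_exp_mul_mgf (μ := GG ι) (X := fun x : ι → ℝ => ∑ k, x k ^ 2)
    ((1 + η) * D) hl0 hi
  rw [hm, hl1, Real.sqrt_inv, inv_inv] at h
  refine h.trans ?_
  have e1 : Real.sqrt (1 + η) ^ Fintype.card ι = Real.exp (D / 2 * Real.log (1 + η)) := by
    rw [Real.sqrt_eq_rpow, ← Real.rpow_natCast, ← Real.rpow_mul (by linarith),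
      Real.rpow_def_of_pos (by linarith)]
    congr 1
    ring
  have e2 : -l * ((1 + η) * D) = -(D / 2 * η) := by
    rw [hl]
    field_simp
  rw [e1, e2, ← Real.exp_add]
  apply Real.exp_le_exp.2
  have h3 := log_upper h0 h1
  have hD0 : 0 ≤ D := Nat.cast_nonneg _
  nlinarith

/-- lower deviation of the squared norm -/
lemma norm_lower {η : ℝ} (h0 : 0 ≤ η) :
    (GG ι).real {x | ∑ k, x k ^ 2 ≤ (1 - η) * Fintype.card ι} ≤
      Real.exp (-(Fintype.card ι * η ^ 2 / 4)) := by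
  set D : ℝ := (Fintype.card ι : ℝ) with hD
  have hl0 : -(η / 2) ≤ 0 := by linarith
  obtain ⟨hi, hm⟩ := mgf_sq (ι := ι) (l := -(η / 2)) (by linarith)
  have h := measure_le_le_exp_mul_mgf (μ := GG ι) (X := fun x : ι → ℝ => ∑ k, x k ^ 2)
    ((1 - η) * D) hl0 hi
  rw [hm] at h
  refine h.trans ?_
  have e0 : 1 - 2 * -(η / 2) = 1 + η := by ring
  have e1 : (Real.sqrt (1 + η))⁻¹ ^ Fintype.card ι = Real.exp (-(D / 2 * Real.log (1 + η))) := by
    rw [inv_pow, Real.exp_neg, Real.sqrt_eq_rpow, ← Real.rpow_natCast,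
      ← Real.rpow_mul (by linarith), Real.rpow_def_of_pos (by linarith)]
    congr 2
    ring
  have e2 : -(-(η / 2)) * ((1 - η) * D) = D / 2 * (η * (1 - η)) := by ring
  rw [e0, e1, e2, ← Real.exp_add]
  apply Real.exp_le_exp.2
  have h3 := log_lower h0
  have hD0 : 0 ≤ D := Nat.cast_nonneg _
  nlinarith

end Pool.Agent.H63.RGG
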