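import Pool.Agent.H63.RGG.Chi

/-!
# Laws of one and of two linear functionals of a standard Gaussian vector
-/

open MeasureTheory ProbabilityTheory Set Filter Topology
open scoped NNReal

namespace Pool.Agent.H63.RGG

variable {ι : Type*} [Fintype ι]

lemma GG_exp (w : ι → ℝ) :
    ∫ z, Complex.exp ((∑ k, w k * z k : ℝ) * Complex.I) ∂(GG ι) =
      Complex.exp (-(∑ k, w k ^ 2 : ℝ) / 2) := by
  have e : ∀ z : ι → ℝ, Complex.exp ((∑ k, w k * z k : ℝ) * Complex.I) =
      ∏ k, Complex.exp ((w k : ℂ) * (z k : ℂ) * Complex.I) := by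
    intro z
    rw [← Complex.exp_sum]
    congr 1
    push_cast
    rw [Finset.sum_mul]
  simp_rw [e]
  rw [integral_fintype_prod_eq_prod (f := fun k (x : ℝ) => Complex.exp ((w k : ℂ) * (x : ℂ) * Complex.I))]
  have h : ∀ k, ∫ x : ℝ, Complex.exp ((w k : ℂ) * (x : ℂ) * Complex.I) ∂(gaussianReal 0 1) =
      Complex.exp (-(w k ^ 2 : ℝ) / 2) := by
    intro k
    rw [← charFun_apply_real, charFun_gaussianReal]
    congr 1
    push_cast
    ring
  simp_rw [h]
  rw [← Complex.exp_sum]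
  congr 1
  push_cast
  rw [← Finset.sum_div, ← Finset.sum_neg_distrib]

lemma measurable_dot (w : ι → ℝ) : Measurable (fun z : ι → ℝ => ∑ k, w k * z k) := by
  fun_prop

/-- law of one linear functional -/
lemma law_one (w : ι → ℝ) : (GG ι).map (fun z => ∑ k, w k * z k) =
    gaussianReal 0 (Real.toNNReal (∑ k, w k ^ 2)) := by
  have hp : IsProbabilityMeasure ((GG ι).map (fun z => ∑ k, w k * z k)) :=
    Measure.isProbabilityMeasure_map (measurable_dot w).aemeasurable
  apply Measure.ext_of_charFun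
  ext t
  rw [charFun_apply_real, charFun_gaussianReal, integral_map (measurable_dot w).aemeasurable
    (by fun_prop)]
  have e : ∀ z : ι → ℝ, Complex.exp ((t : ℂ) * ((∑ k, w k * z k : ℝ) : ℂ) * Complex.I) =
      Complex.exp ((∑ k, (t * w k) * z k : ℝ) * Complex.I) := by
    intro z
    congr 2
    rw [← Complex.ofReal_mul, Finset.mul_sum]
    congr 1
    apply Finset.sum_congr rfl
    intro k _
    ring
  simp_rw [e]
  rw [GG_exp]
  congr 1
  have h0 : 0 ≤ ∑ k, w k ^ 2 := Finset.sum_nonneg fun k _ => sq_nonneg _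
  rw [show ((Real.toNNReal (∑ k, w k ^ 2) : ℝ≥0) : ℂ) = (((Real.toNNReal (∑ k, w k ^ 2) : ℝ≥0) : ℝ) : ℂ)
    from rfl, Real.coe_toNNReal _ h0]
  have e2 : ∑ k, (t * w k) ^ 2 = t ^ 2 * ∑ k, w k ^ 2 := by
    rw [Finset.mul_sum]
    apply Finset.sum_congr rfl
    intro k _
    ring
  rw [e2]
  push_cast
  ring

/-- tail of one functional -/
lemma tail_one {w : ι → ℝ} (hw : ∑ k, w k ^ 2 = 1) (a : ℝ) :
    (GG ι).real {z | a ≤ ∑ k, w k * z k} = QQ a := by
  have h := law_one w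
  rw [hw, Real.toNNReal_one] at h
  unfold QQ
  rw [← h, map_measureReal_apply (measurable_dot w) measurableSet_Ici]
  rfl

/-- law of two linear functionals -/
lemma law_two {u v : ι → ℝ} {ρ s : ℝ} (hu : ∑ k, u k ^ 2 = 1) (hv : ∑ k, v k ^ 2 = 1)
    (huv : ∑ k, u k * v k = ρ) (hs : s ^ 2 = 1 - ρ ^ 2) :
    (GG ι).map (fun z => (∑ k, u k * z k, ∑ k, v k * z k)) =
      ((gaussianReal 0 1).prod (gaussianReal 0 1)).map (fun p => (p.1, ρ * p.1 + s * p.2)) := by
  have hm1 : Measurable (fun z : ι → ℝ => (∑ k, u k * z k, ∑ k, v k * z k)) :=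
    (measurable_dot u).prodMk (measurable_dot v)
  have hm2 : Measurable (fun p : ℝ × ℝ => (p.1, ρ * p.1 + s * p.2)) := by fun_prop
  have hp1 : IsProbabilityMeasure ((GG ι).map (fun z => (∑ k, u k * z k, ∑ k, v k * z k))) :=
    Measure.isProbabilityMeasure_map hm1.aemeasurable
  have hp2 : IsProbabilityMeasure
      (((gaussianReal 0 1).prod (gaussianReal 0 1)).map (fun p : ℝ × ℝ => (p.1, ρ * p.1 + s * p.2))) :=
    Measure.isProbabilityMeasure_map hm2.aemeasurable
  apply Measure.ext_of_charFunDual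
  ext L
  set α : ℝ := L (1, 0) with hα
  set β : ℝ := L (0, 1) with hβ
  have hL : ∀ a b : ℝ, L (a, b) = α * a + β * b := by
    intro a b
    have : ((a, b) : ℝ × ℝ) = a • ((1, 0) : ℝ × ℝ) + b • ((0, 1) : ℝ × ℝ) := by simp
    rw [this, map_add, map_smul, map_smul, hα, hβ]
    simp [mul_comm]
  rw [charFunDual_apply, charFunDual_apply, integral_map hm1.aemeasurable (by fun_prop),
    integral_map hm2.aemeasurable (by fun_prop)]
  simp_rw [hL]
  have e1 : ∀ z : ι → ℝ, Complex.exp (((α * (∑ k, u k * z k) + β * ∑ k, v k * z k : ℝ) : ℂ) * Complex.I) =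
      Complex.exp ((∑ k, (α * u k + β * v k) * z k : ℝ) * Complex.I) := by
    intro z
    congr 3
    rw [Finset.mul_sum, Finset.mul_sum, ← Finset.sum_add_distrib]
    apply Finset.sum_congr rfl
    intro k _
    ring
  simp_rw [e1]
  rw [GG_exp]
  have e2 : ∀ p : ℝ × ℝ, Complex.exp (((α * p.1 + β * (ρ * p.1 + s * p.2) : ℝ) : ℂ) * Complex.I) =
      Complex.exp (((α + β * ρ : ℝ) : ℂ) * (p.1 : ℂ) * Complex.I) *
        Complex.exp (((β * s : ℝ) : ℂ) * (p.2 : ℂ) * Complex.I) := by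
    intro p
    rw [← Complex.exp_add]
    congr 1
    push_cast
    ring
  simp_rw [e2]
  rw [integral_prod_mul (fun x : ℝ => Complex.exp (((α + β * ρ : ℝ) : ℂ) * (x : ℂ) * Complex.I))
    (fun x : ℝ => Complex.exp (((β * s : ℝ) : ℂ) * (x : ℂ) * Complex.I)),
    ← charFun_apply_real, ← charFun_apply_real, charFun_gaussianReal, charFun_gaussianReal,
    ← Complex.exp_add]
  congr 1
  have e3 : ∑ k, (α * u k + β * v k) ^ 2 = α ^ 2 + β ^ 2 + 2 * α * β * ρ := by
    have : ∀ k, (α * u k + β * v k) ^ 2 = α ^ 2 * u k ^ 2 + β ^ 2 * v k ^ 2 + 2 * α * β * (u k * v k) := by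
      intro k
      ring
    simp_rw [this]
    rw [Finset.sum_add_distrib, Finset.sum_add_distrib, ← Finset.mul_sum, ← Finset.mul_sum,
      ← Finset.mul_sum, hu, hv, huv]
    ring
  rw [e3]
  have hs' : ((s : ℂ)) ^ 2 = 1 - (ρ : ℂ) ^ 2 := by exact_mod_cast hs
  push_cast
  linear_combination ((β : ℂ) ^ 2 / 2) * hs'

end Pool.Agent.H63.RGG
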