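import Mathlib

/-!
# Tail of the standard Gaussian: Chernoff bound, Mills lower bound, comparison of tails
-/

open MeasureTheory ProbabilityTheory Set Filter Topology

namespace Pool.Agent.H63.RGG

/-- tail of the standard normal law -/
noncomputable def QQ (x : ℝ) : ℝ := (gaussianReal 0 1).real (Ici x)

/-- density of the standard normal law -/
noncomputable def ph (x : ℝ) : ℝ := (Real.sqrt (2 * Real.pi))⁻¹ * Real.exp (-x ^ 2 / 2)

lemma ph_eq (x : ℝ) : gaussianPDFReal 0 1 x = ph x := by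
  simp [gaussianPDFReal, ph]

lemma ph_pos (x : ℝ) : 0 < ph x := by
  unfold ph
  have : 0 < Real.sqrt (2 * Real.pi) := Real.sqrt_pos.2 (by positivity)
  positivity

lemma ph_integrable : Integrable ph := by
  have h := integrable_gaussianPDFReal 0 1
  have e : gaussianPDFReal 0 1 = ph := funext ph_eq
  rwa [e] at h

lemma ph_continuous : Continuous ph := by
  unfold ph
  fun_prop

lemma real_eq_integral (s : Set ℝ) :
    (gaussianReal 0 1).real s = ∫ x in s, ph x := by
  rw [Measure.real, gaussianReal_apply_eq_integral 0 one_ne_zero]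
  rw [ENNReal.toReal_ofReal]
  · simp_rw [ph_eq]
  · exact integral_nonneg fun x => gaussianPDFReal_nonneg _ _ _

lemma QQ_eq (x : ℝ) : QQ x = ∫ u in Ioi x, ph u := by
  unfold QQ
  rw [real_eq_integral, integral_Ici_eq_integral_Ioi]

lemma QQ_nonneg (x : ℝ) : 0 ≤ QQ x := measureReal_nonneg

lemma QQ_le_one (x : ℝ) : QQ x ≤ 1 := measureReal_le_one

lemma QQ_anti {x y : ℝ} (h : x ≤ y) : QQ y ≤ QQ x := by
  unfold QQ
  exact measureReal_mono (Ici_subset_Ici.2 h)

/-- Chernoff -/
lemma QQ_le {x : ℝ} (hx : 0 ≤ x) : QQ x ≤ Real.exp (-x ^ 2 / 2) := by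
  have h := measure_ge_le_exp_mul_mgf (μ := gaussianReal 0 1) (X := id) x hx
    (integrable_exp_mul_gaussianReal x)
  rw [mgf_id_gaussianReal] at h
  unfold QQ
  refine h.trans (le_of_eq ?_)
  rw [← Real.exp_add]
  congr 1
  simp
  ring

lemma ph_hasDerivAt (u : ℝ) : HasDerivAt ph (-u * ph u) u := by
  unfold ph
  have h1 : HasDerivAt (fun u : ℝ => -u ^ 2 / 2) (-u) u := by
    have := ((hasDerivAt_pow 2 u).neg).div_const 2
    refine this.congr_deriv ?_
    push_cast
    ring
  have h2 := (h1.exp).const_mul ((Real.sqrt (2 * Real.pi))⁻¹)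
  refine h2.congr_deriv ?_
  ring

lemma ph_tendsto : Tendsto ph atTop (𝓝 0) := by
  unfold ph
  have h : Tendsto (fun x : ℝ => -x ^ 2 / 2) atTop atBot := by
    have h1 : Tendsto (fun x : ℝ => x ^ 2 / 2) atTop atTop :=
      (tendsto_pow_atTop (n := 2) (by norm_num)).atTop_div_const (by norm_num)
    refine (tendsto_neg_atTop_atBot.comp h1).congr fun x => ?_
    simp only [Function.comp]
    ring
  have := (Real.tendsto_exp_atBot.comp h).const_mul ((Real.sqrt (2 * Real.pi))⁻¹)
  simpa using this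

/-- Mills' lower bound (hazard rate at most `x + 1`) -/
lemma ph_le_QQ {x : ℝ} (hx : 0 ≤ x) : ph x ≤ (x + 1) * QQ x := by
  have hd : ∀ u ∈ Ici x, HasDerivAt (fun u => - (ph u / (u + 1)))
      (ph u * ((u ^ 2 + u + 1) / (u + 1) ^ 2)) u := by
    intro u hu
    have hu0 : 0 ≤ u := hx.trans hu
    have hne : u + 1 ≠ 0 := by positivity
    have h1 := ((ph_hasDerivAt u).div ((hasDerivAt_id u).add_const 1) hne).neg
    refine h1.congr_deriv ?_
    simp only [id_eq]
    field_simp
    ring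
  have ht : Tendsto (fun u => - (ph u / (u + 1))) atTop (𝓝 0) := by
    have h1 : Tendsto (fun u : ℝ => u + 1) atTop atTop := tendsto_atTop_add_const_right _ _ tendsto_id
    have := (ph_tendsto.div_atTop h1).neg
    simpa using this
  have hnn : ∀ u ∈ Ioi x, 0 ≤ ph u * ((u ^ 2 + u + 1) / (u + 1) ^ 2) := by
    intro u hu
    have hu0 : 0 ≤ u := hx.trans (le_of_lt hu)
    have := ph_pos u
    positivity
  have h1 := integral_Ioi_of_hasDerivAt_of_nonneg' hd hnn ht
  have h2 := integrableOn_Ioi_deriv_of_nonneg' hd hnn ht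
  have h3 : ∫ u in Ioi x, ph u * ((u ^ 2 + u + 1) / (u + 1) ^ 2) ≤ ∫ u in Ioi x, ph u := by
    apply setIntegral_mono_on h2 ph_integrable.integrableOn measurableSet_Ioi
    intro u hu
    have hu0 : 0 ≤ u := hx.trans (le_of_lt hu)
    have h4 : (u ^ 2 + u + 1) / (u + 1) ^ 2 ≤ 1 := by
      rw [div_le_one (by positivity)]
      nlinarith
    have := ph_pos u
    nlinarith
  rw [h1, ← QQ_eq] at h3
  have h5 : ph x / (x + 1) ≤ QQ x := by linarith
  rw [div_le_iff₀ (by positivity)] at h5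
  linarith

lemma QQ_pos {x : ℝ} : 0 < QQ x := by
  rcases le_total 0 x with h | h
  · have h1 := ph_le_QQ h
    have h2 := ph_pos x
    by_contra hcon
    have : QQ x ≤ 0 := not_lt.1 hcon
    nlinarith
  · have h1 := ph_le_QQ (le_refl (0 : ℝ))
    have h2 := ph_pos 0
    have h3 := QQ_anti h
    linarith

/-- explicit lower bound -/
lemma le_QQ {x : ℝ} (hx : 0 ≤ x) :
    (Real.sqrt (2 * Real.pi))⁻¹ * Real.exp (-x ^ 2 / 2) / (1 + x) ≤ QQ x := by
  have h := ph_le_QQ hx
  rw [div_le_iff₀ (by positivity)]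
  unfold ph at h
  linarith

lemma QQ_sub {x y : ℝ} (hx : 0 ≤ x) (hxy : x ≤ y) : QQ x - QQ y ≤ (y - x) * ph x := by
  have h1 : ∫ u in Ioi x, ph u = (∫ u in Ioc x y, ph u) + ∫ u in Ioi y, ph u := by
    rw [← Ioc_union_Ioi_eq_Ioi hxy]
    exact setIntegral_union (Ioc_disjoint_Ioi le_rfl) measurableSet_Ioi
      ph_integrable.integrableOn ph_integrable.integrableOn
  have h2 : ∫ u in Ioc x y, ph u ≤ ∫ _u in Ioc x y, ph x := by
    apply setIntegral_mono_on ph_integrable.integrableOn
      (integrableOn_const (by simp)) measurableSet_Ioc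
    intro u hu
    unfold ph
    apply mul_le_mul_of_nonneg_left _ (by positivity)
    apply Real.exp_le_exp.2
    have : x ≤ u := hu.1.le
    nlinarith
  rw [setIntegral_const] at h2
  simp only [measureReal_def, Real.volume_Ioc, smul_eq_mul,
    ENNReal.toReal_ofReal (sub_nonneg.2 hxy)] at h2
  rw [QQ_eq, QQ_eq]
  linarith

/-- comparison of tails -/
lemma QQ_compare {x y : ℝ} (hx : 0 ≤ x) (hxy : x ≤ y) :
    QQ x * (1 - (y - x) * (x + 1)) ≤ QQ y := by
  have h1 := QQ_sub hx hxy
  have h2 := ph_le_QQ hx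
  have h3 : (y - x) * ph x ≤ (y - x) * ((x + 1) * QQ x) :=
    mul_le_mul_of_nonneg_left h2 (sub_nonneg.2 hxy)
  nlinarith

end Pool.Agent.H63.RGG
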